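import Mathlib

set_option autoImplicit false

namespace Pool.Agent.P.MP_5814e0_lc

open FirstOrder FirstOrder.Language

universe u

/-- A 2-colouring of the copies in `M` of the enumerated structure on `Fin n` is externally
definable. -/
def ExtDef (L : FirstOrder.Language.{0, 0}) (M : Type) [L.Structure M] (n : ℕ) [L.Structure (Fin n)]
    (χ : (Fin n ↪[L] M) → Fin 2) : Prop :=
  ∃ (N : Type u) (_ : L.Structure N) (j : M ↪ₑ[L] N) (m : ℕ) (e : Fin m → N)
    (φ : Fin 2 → L.Formula (Fin m ⊕ Fin n)),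
    ∀ (f : Fin n ↪[L] M) (i : Fin 2),
      χ f = i ↔ (φ i).Realize (Sum.elim e (fun a => j (f a)))

/-- Some copy of `B` inside `S` is monochromatic. -/
def MonoCopyIn (L : FirstOrder.Language.{0, 0}) (M : Type) [L.Structure M] (n : ℕ) [L.Structure (Fin n)]
    (B : Type) [L.Structure B] (χ : (Fin n ↪[L] M) → Fin 2) (S : Set M) : Prop :=
  ∃ g : B ↪[L] M, Set.range g ⊆ S ∧
    ∀ f f' : Fin n ↪[L] M, Set.range f ⊆ Set.range g → Set.range f' ⊆ Set.range g → χ f = χ f'

end Pool.Agent.P.MP_5814e0_lc
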