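import Mathlib
import Pool.Agent.P.MP_5814e0_lc.Defs

set_option autoImplicit false
set_option linter.style.haveILetI false

namespace Pool.Agent.P.MP_5814e0_lc

open FirstOrder FirstOrder.Language

universe u

/-- The vertex set of the infinite perfect matching. -/
def MM : Type := ℕ × Bool

def mG : SimpleGraph MM where
  Adj x y := x.1 = y.1 ∧ x.2 ≠ y.2
  symm := ⟨fun _ _ h => ⟨h.1.symm, h.2.symm⟩⟩
  loopless := ⟨fun _ h => h.2 rfl⟩

instance mS : Language.graph.Structure MM := mG.structure

@[instance_reducible]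
def ptS : Language.graph.Structure (Fin 1) := (⊥ : SimpleGraph (Fin 1)).structure

@[instance_reducible]
def edS : Language.graph.Structure Bool := (⊤ : SimpleGraph Bool).structure

theorem rel_iff (x : Fin 2 → MM) :
    Structure.RelMap (L := Language.graph) adj x ↔ (x 0).1 = (x 1).1 ∧ (x 0).2 ≠ (x 1).2 := Iff.rfl

/-- build an embedding between structures in the language of graphs -/
def mkEmb {A B : Type*} [Language.graph.Structure A] [Language.graph.Structure B] (f : A ↪ B)
    (h : ∀ x : Fin 2 → A, Structure.RelMap (L := Language.graph) adj (f ∘ x) ↔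
      Structure.RelMap (L := Language.graph) adj x) : A ↪[Language.graph] B where
  toEmbedding := f
  map_fun' := fun g => isEmptyElim g
  map_rel' := by
    rintro n ⟨⟩ x
    exact h x

def mkEquiv {A B : Type*} [Language.graph.Structure A] [Language.graph.Structure B] (f : A ≃ B)
    (h : ∀ x : Fin 2 → A, Structure.RelMap (L := Language.graph) adj (f ∘ x) ↔
      Structure.RelMap (L := Language.graph) adj x) : A ≃[Language.graph] B where
  toEquiv := f
  map_fun' := fun g => isEmptyElim g
  map_rel' := by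
    rintro n ⟨⟩ x
    exact h x

def ptEmb (x : MM) : @Language.Embedding Language.graph (Fin 1) MM ptS mS :=
  letI := ptS
  mkEmb ⟨fun _ => x, fun _ _ _ => Subsingleton.elim _ _⟩ (fun y => by
    constructor
    · intro h
      exact absurd rfl ((rel_iff _).1 h).2
    · intro h
      exact h.elim)

def edEmb (k : ℕ) : @Language.Embedding Language.graph Bool MM edS mS :=
  letI := edS
  mkEmb ⟨fun b => ((k, b) : ℕ × Bool), fun _ _ h => congrArg Prod.snd h⟩ (fun y => by
    constructor
    · intro h
      exact ((rel_iff _).1 h).2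
    · intro h
      exact (rel_iff _).2 ⟨rfl, h⟩)

theorem ultra : Language.graph.IsUltrahomogeneous MM := by
  classical
  intro S hS f
  have hfin : Finite S := hS.finite
  have hrel : ∀ x y : S, ((f x).1 = (f y).1 ∧ (f x).2 ≠ (f y).2) ↔
      ((x : MM).1 = (y : MM).1 ∧ (x : MM).2 ≠ (y : MM).2) := by
    intro x y
    have := f.map_rel adj ![x, y]
    exact this
  have hfst : ∀ x y : S, (f x).1 = (f y).1 ↔ (x : MM).1 = (y : MM).1 := by
    intro x y
    constructor
    · intro h
      by_cases h2 : (f x).2 = (f y).2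
      · have : x = y := f.injective (Prod.ext h h2)
        rw [this]
      · exact ((hrel x y).1 ⟨h, h2⟩).1
    · intro h
      by_cases h2 : (x : MM).2 = (y : MM).2
      · have : x = y := Subtype.ext (Prod.ext h h2)
        rw [this]
      · exact ((hrel x y).2 ⟨h, h2⟩).1
  have hsnd : ∀ x y : S, (x : MM).1 = (y : MM).1 →
      xor (f x).2 (x : MM).2 = xor (f y).2 (y : MM).2 := by
    intro x y h
    by_cases h2 : (x : MM).2 = (y : MM).2
    · have : x = y := Subtype.ext (Prod.ext h h2)
      rw [this]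
    · have h3 := ((hrel x y).2 ⟨h, h2⟩).2
      revert h2 h3
      cases (f x).2 <;> cases (f y).2 <;> cases (x : MM).2 <;> cases (y : MM).2 <;> simp
  let D : Set ℕ := Set.range (fun x : S => (x : MM).1)
  have hD : D.Finite := Set.finite_range _
  let σ0 : D ↪ ℕ := ⟨fun n => (f (Classical.choose n.2)).1, by
    intro a b h
    have := (hfst _ _).1 h
    have ha := Classical.choose_spec a.2
    have hb := Classical.choose_spec b.2
    simp only at ha hb
    exact Subtype.ext (by rw [← ha, ← hb, this])⟩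
  obtain ⟨σ, hσ⟩ := Cardinal.extend_function_of_lt σ0
    (by rw [Cardinal.mk_nat]; exact hD.lt_aleph0) ⟨_root_.Equiv.refl ℕ⟩
  let ε : ℕ → Bool := fun n =>
    if h : n ∈ D then xor (f (Classical.choose h)).2 ((Classical.choose h : S) : MM).2 else false
  let g0 : MM ≃ MM :=
    { toFun := fun x => ((σ x.1, xor (ε x.1) x.2) : ℕ × Bool)
      invFun := fun x => ((σ.symm x.1, xor (ε (σ.symm x.1)) x.2) : ℕ × Bool)
      left_inv := by
        rintro ⟨n, b⟩
        simp
      right_inv := by
        rintro ⟨n, b⟩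
        simp }
  refine ⟨mkEquiv g0 ?_, ?_⟩
  · intro x
    rw [rel_iff, rel_iff]
    show (σ (x 0).1 = σ (x 1).1 ∧ xor (ε (x 0).1) (x 0).2 ≠ xor (ε (x 1).1) (x 1).2) ↔ _
    rw [σ.injective.eq_iff]
    refine and_congr_right fun h => ?_
    rw [h]
    cases ε (x 1).1 <;> cases (x 0).2 <;> cases (x 1).2 <;> simp
  · ext x
    have hx : (x : MM).1 ∈ D := ⟨x, rfl⟩
    have hc := Classical.choose_spec hx
    simp only at hc
    show f x = ((σ (x : MM).1, xor (ε (x : MM).1) (x : MM).2) : ℕ × Bool)
    refine Prod.ext ?_ ?_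
    · have := hσ ⟨_, hx⟩
      simp only at this
      rw [this]
      exact (hfst _ _).2 hc.symm
    · simp only [ε, hx, dif_pos]
      rw [hsnd _ x hc]
      cases (f x).2 <;> cases (x : MM).2 <;> simp

/-- the formula saying that the only out-neighbour of variable 0 is variable 1 -/
def nb1 : Language.graph.Formula (Fin 2) :=
  BoundedFormula.all ((Relations.boundedFormula₂ adj (Term.var (Sum.inl 0)) (Term.var (Sum.inr 0))).iff
    (Term.bdEqual (Term.var (Sum.inr 0)) (Term.var (Sum.inl 1))))

def nb2 : Language.graph.Formula (Fin 2) :=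
  BoundedFormula.all ((Relations.boundedFormula₂ adj (Term.var (Sum.inr 0)) (Term.var (Sum.inl 0))).iff
    (Term.bdEqual (Term.var (Sum.inr 0)) (Term.var (Sum.inl 1))))

theorem realize_nb1 {N : Type*} [Language.graph.Structure N] (v : Fin 2 → N) :
    nb1.Realize v ↔ ∀ y, (Structure.RelMap (L := Language.graph) adj ![v 0, y] ↔ y = v 1) := by
  simp [nb1, Formula.Realize, Fin.snoc]

theorem realize_nb2 {N : Type*} [Language.graph.Structure N] (v : Fin 2 → N) :
    nb2.Realize v ↔ ∀ y, (Structure.RelMap (L := Language.graph) adj ![y, v 0] ↔ y = v 1) := by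
  simp [nb2, Formula.Realize, Fin.snoc]

theorem nb1_MM (k : ℕ) (b : Bool) :
    nb1.Realize (![((k, b) : ℕ × Bool), ((k, !b) : ℕ × Bool)] : Fin 2 → MM) := by
  rw [realize_nb1]
  rintro ⟨n, c⟩
  rw [rel_iff]
  show (k = n ∧ b ≠ c) ↔ ((n, c) : ℕ × Bool) = (k, !b)
  rw [Prod.ext_iff]
  cases b <;> cases c <;> simp [eq_comm]

theorem nb2_MM (k : ℕ) (b : Bool) :
    nb2.Realize (![((k, b) : ℕ × Bool), ((k, !b) : ℕ × Bool)] : Fin 2 → MM) := by
  rw [realize_nb2]
  rintro ⟨n, c⟩
  rw [rel_iff]
  show (n = k ∧ c ≠ b) ↔ ((n, c) : ℕ × Bool) = (k, !b)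
  rw [Prod.ext_iff]
  cases b <;> cases c <;> simp

theorem arrow_M (χ : @Language.Embedding Language.graph (Fin 1) MM ptS mS → Fin 2)
    (h : @ExtDef.{u} Language.graph MM mS 1 ptS χ) :
    @MonoCopyIn Language.graph MM mS 1 ptS Bool edS χ Set.univ := by
  classical
  letI := ptS
  letI := edS
  obtain ⟨N, _, j, m, e, φ, hφ⟩ := h
  have hfin : (Prod.fst '' ((j : MM → N) ⁻¹' Set.range e) : Set ℕ).Finite :=
    ((Set.finite_range e).preimage j.injective.injOn).image _
  obtain ⟨k, hk⟩ := hfin.exists_notMem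
  have hk' : ∀ (b : Bool) (i : Fin m), e i ≠ j ((k, b) : ℕ × Bool) := by
    intro b i hi
    exact hk ⟨((k, b) : ℕ × Bool), ⟨i, hi⟩, rfl⟩
  set p : N := j ((k, false) : ℕ × Bool) with hp
  set q : N := j ((k, true) : ℕ × Bool) with hq
  have h1 : ∀ y, Structure.RelMap (L := Language.graph) adj ![p, y] ↔ y = q :=
    (realize_nb1 _).1 ((j.map_formula nb1 _).2 (nb1_MM k false))
  have h2 : ∀ y, Structure.RelMap (L := Language.graph) adj ![q, y] ↔ y = p :=
    (realize_nb1 _).1 ((j.map_formula nb1 _).2 (nb1_MM k true))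
  have h3 : ∀ y, Structure.RelMap (L := Language.graph) adj ![y, p] ↔ y = q :=
    (realize_nb2 _).1 ((j.map_formula nb2 _).2 (nb2_MM k false))
  have h4 : ∀ y, Structure.RelMap (L := Language.graph) adj ![y, q] ↔ y = p :=
    (realize_nb2 _).1 ((j.map_formula nb2 _).2 (nb2_MM k true))
  have hpq : p ≠ q := by
    intro h
    have := congrArg Prod.snd (j.injective h)
    simp at this
  let τ : N ≃[Language.graph] N := mkEquiv (_root_.Equiv.swap p q) (by
    intro x
    have e1 : x = ![x 0, x 1] := by
      funext i; fin_cases i <;> rfl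
    have e2 : (_root_.Equiv.swap p q) ∘ x =
        ![_root_.Equiv.swap p q (x 0), _root_.Equiv.swap p q (x 1)] := by
      funext i; fin_cases i <;> rfl
    rw [e2]
    conv_rhs => rw [e1]
    generalize x 0 = a
    generalize x 1 = b
    by_cases ha : a = p
    · subst ha
      rw [_root_.Equiv.swap_apply_left, h1, h2, _root_.Equiv.swap_apply_eq_iff,
        _root_.Equiv.swap_apply_left]
    · by_cases ha' : a = q
      · subst ha'
        rw [_root_.Equiv.swap_apply_right, h1, h2, _root_.Equiv.swap_apply_eq_iff,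
          _root_.Equiv.swap_apply_right]
      · rw [_root_.Equiv.swap_apply_of_ne_of_ne ha ha']
        by_cases hb : b = p
        · subst hb
          rw [_root_.Equiv.swap_apply_left, h3, h4]
          simp [ha, ha']
        · by_cases hb' : b = q
          · subst hb'
            rw [_root_.Equiv.swap_apply_right, h3, h4]
            simp [ha, ha']
          · rw [_root_.Equiv.swap_apply_of_ne_of_ne hb hb'])
  have key : χ (ptEmb ((k, false) : ℕ × Bool)) = χ (ptEmb ((k, true) : ℕ × Bool)) := by
    rw [hφ]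
    have h5 := (hφ (ptEmb ((k, true) : ℕ × Bool)) _).1 rfl
    rw [← StrongHomClass.realize_formula τ] at h5
    convert h5 using 1
    funext i
    rcases i with i | i
    · exact (_root_.Equiv.swap_apply_of_ne_of_ne (hk' false i) (hk' true i)).symm
    · exact (_root_.Equiv.swap_apply_right p q).symm
  have hcases : ∀ f : Fin 1 ↪[Language.graph] MM, Set.range f ⊆ Set.range (edEmb k) →
      χ f = χ (ptEmb ((k, true) : ℕ × Bool)) := by
    intro f hf
    obtain ⟨b, hb⟩ := hf ⟨0, rfl⟩
    have : f = ptEmb ((k, b) : ℕ × Bool) := by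
      ext i
      rw [Subsingleton.elim i 0, ← hb]
      rfl
    rw [this]
    cases b
    · exact key
    · rfl
  exact ⟨edEmb k, Set.subset_univ _, fun f f' hf hf' => (hcases f hf).trans (hcases f' hf').symm⟩

theorem no_witness (C : Type) [Language.graph.Structure C] [Finite C]
    (h : C ↪[Language.graph] MM) :
    ∃ χ : @Language.Embedding Language.graph (Fin 1) MM ptS mS → Fin 2,
      @ExtDef.{u} Language.graph MM mS 1 ptS χ ∧
      ¬ @MonoCopyIn Language.graph MM mS 1 ptS Bool edS χ (Set.range h) := by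
  classical
  letI := ptS
  letI := edS
  let F : Set MM := {x | x ∈ Set.range h ∧ x.2 = false}
  have hF : F.Finite := (Set.finite_range h).subset (fun x hx => hx.1)
  obtain ⟨m, en, hen⟩ : ∃ (m : ℕ) (en : Fin m → MM), Set.range en = F := by
    obtain ⟨m, en, _, hen⟩ := hF.fin_param
    exact ⟨m, en, hen⟩
  refine ⟨fun f => if f 0 ∈ F then 0 else 1, ?_, ?_⟩
  · letI : Language.graph.Structure (ULift.{u} MM) :=
      _root_.Equiv.inducedStructure _root_.Equiv.ulift.symm
    let φ0 : Language.graph.Formula (Fin m ⊕ Fin 1) :=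
      Formula.iSup (fun i : Fin m => Term.equal (Term.var (Sum.inl i)) (Term.var (Sum.inr 0)))
    refine ⟨ULift.{u} MM, inferInstance,
      (_root_.Equiv.inducedStructureEquiv _root_.Equiv.ulift.symm).toElementaryEmbedding, m,
      fun i => ULift.up (en i), ![φ0, φ0.not], ?_⟩
    intro f i
    have h0 : φ0.Realize (Sum.elim (fun i => ULift.up (en i))
        (fun a => (_root_.Equiv.inducedStructureEquiv (L := Language.graph)
          (_root_.Equiv.ulift.symm : MM ≃ ULift.{u} MM)).toElementaryEmbedding (f a))) ↔ f 0 ∈ F := by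
      rw [← hen]
      simp only [φ0, Formula.realize_iSup, Formula.realize_equal, Term.realize_var, Sum.elim_inl,
        Sum.elim_inr, Set.mem_range]
      refine exists_congr fun i => ?_
      exact ULift.up_inj
    fin_cases i
    · simp only [Fin.zero_eta, Matrix.cons_val_zero]
      rw [h0]
      by_cases hx : f 0 ∈ F <;> simp [hx]
    · simp only [Fin.mk_one, Matrix.cons_val_one, Matrix.cons_val_zero, Formula.realize_not]
      rw [h0]
      by_cases hx : f 0 ∈ F <;> simp [hx]
  · rintro ⟨g, hg, hmono⟩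
    have hadj : (g false).1 = (g true).1 ∧ (g false).2 ≠ (g true).2 := by
      have := (g.map_rel adj ![false, true]).2 (by
        show (⊤ : SimpleGraph Bool).Adj false true
        simp)
      exact this
    have := hmono (ptEmb (g false)) (ptEmb (g true))
      (by rintro _ ⟨i, rfl⟩; exact ⟨false, rfl⟩) (by rintro _ ⟨i, rfl⟩; exact ⟨true, rfl⟩)
    have e1 : ptEmb (g false) 0 = g false := rfl
    have e2 : ptEmb (g true) 0 = g true := rfl
    have m1 : g false ∈ Set.range h := hg ⟨false, rfl⟩
    have m2 : g true ∈ Set.range h := hg ⟨true, rfl⟩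
    simp only [e1, e2, F, Set.mem_ofPred_eq, m1, m2, true_and] at this
    have h2 := hadj.2
    revert this h2
    cases (g false).2 <;> cases (g true).2 <;> simp

theorem main : ∃ (L : FirstOrder.Language.{0, 0}) (_ : L.IsRelational) (_ : Countable L.Symbols)
    (M : Type) (_ : L.Structure M), Countable M ∧ Infinite M ∧ L.IsUltrahomogeneous M ∧
    ∃ (n : ℕ) (_ : L.Structure (Fin n)) (B : Type) (_ : L.Structure B),
      n = 1 ∧ Finite B ∧ Nonempty (Fin n ↪[L] M) ∧ Nonempty (B ↪[L] M) ∧
      (∀ χ : (Fin n ↪[L] M) → Fin 2, ExtDef.{u} L M n χ → MonoCopyIn L M n B χ Set.univ) ∧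
      ¬ ∃ (C : Type) (_ : L.Structure C), Finite C ∧ Nonempty (C ↪[L] M) ∧
        ∀ (h : C ↪[L] M) (χ : (Fin n ↪[L] M) → Fin 2),
          ExtDef.{u} L M n χ → MonoCopyIn L M n B χ (Set.range h) := by
  refine ⟨Language.graph, inferInstance, ?_, MM, mS, inferInstanceAs (Countable (ℕ × Bool)),
    inferInstanceAs (Infinite (ℕ × Bool)), ultra, 1, ptS, Bool, edS, rfl, inferInstance,
    ⟨ptEmb ((0, false) : ℕ × Bool)⟩, ⟨edEmb 0⟩, arrow_M, ?_⟩
  · infer_instance
  · rintro ⟨C, _, hC, ⟨h⟩, hall⟩
    obtain ⟨χ, h1, h2⟩ := no_witness.{u} C h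
    exact h2 (hall h χ h1)

end Pool.Agent.P.MP_5814e0_lc
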