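import Mathlib

set_option autoImplicit false

namespace Pool.Agent.P.MP_5814e0_lc

open FirstOrder FirstOrder.Language

/-- A 2-colouring of the copies in `M` of the enumerated structure on `Fin n` is definable in `M`
itself over the single parameter `e`. -/
def DefAt (L : FirstOrder.Language.{0, 0}) (M : Type) [L.Structure M] (n : ℕ) [L.Structure (Fin n)]
    (e : M) (χ : (Fin n ↪[L] M) → Fin 2) : Prop :=
  ∃ φ : Fin 2 → L.Formula (Fin 1 ⊕ Fin n),
    ∀ (f : Fin n ↪[L] M) (i : Fin 2),
      χ f = i ↔ (φ i).Realize (Sum.elim (fun _ => e) (fun a => f a))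

end Pool.Agent.P.MP_5814e0_lc
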