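import Mathlib
import Pool.Agent.P.MP_5814e0_lc.Defs
import Pool.Agent.P.MP_5814e0_lc.OneDefs

set_option autoImplicit false
set_option linter.style.haveILetI false

namespace Pool.Agent.P.MP_5814e0_lc.One

open FirstOrder FirstOrder.Language

universe u v

/-- One binary relation symbol for each integer. -/
inductive ZRel : ℕ → Type
  | d (k : ℤ) : ZRel 2

/-- The language of differences. -/
abbrev LZ : FirstOrder.Language.{0, 0} := ⟨fun _ => Empty, ZRel⟩

instance lzRel : LZ.IsRelational := fun _ => inferInstanceAs (IsEmpty Empty)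

def zval : ∀ {l : ℕ}, ZRel l → ℤ
  | _, ZRel.d k => k

theorem lz_countable : Countable LZ.Symbols := by
  have h1 : ∀ l, Countable (LZ.Relations l) := by
    intro l
    refine Function.Injective.countable (f := fun r : ZRel l => zval r) ?_
    intro a b h
    cases a
    cases b
    exact congrArg ZRel.d h
  have h2 : ∀ l, Countable (LZ.Functions l) := fun _ => inferInstanceAs (Countable Empty)
  exact inferInstanceAs (Countable ((Σ l, LZ.Functions l) ⊕ (Σ l, LZ.Relations l)))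

/-- The structure induced by a map to the integers. -/
@[instance_reducible]
def zS {A : Type v} (ι : A → ℤ) : LZ.Structure A where
  funMap := fun f _ => Empty.elim f
  RelMap := fun {l} r => match l, r with
    | _, ZRel.d k => fun x => ι (x 1) - ι (x 0) = k

local instance zInt : LZ.Structure ℤ := zS id

theorem rel_iff (k : ℤ) (x : Fin 2 → ℤ) :
    Structure.RelMap (L := LZ) (ZRel.d k) x ↔ x 1 - x 0 = k := Iff.rfl

def mkEmb {A B : Type*} [LZ.Structure A] [LZ.Structure B] (f : A ↪ B)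
    (h : ∀ (k : ℤ) (x : Fin 2 → A), Structure.RelMap (L := LZ) (ZRel.d k) (f ∘ x) ↔
      Structure.RelMap (L := LZ) (ZRel.d k) x) : A ↪[LZ] B where
  toEmbedding := f
  map_fun' := fun g => Empty.elim g
  map_rel' := by
    rintro n ⟨k⟩ x
    exact h k x

def mkEquiv {A B : Type*} [LZ.Structure A] [LZ.Structure B] (f : A ≃ B)
    (h : ∀ (k : ℤ) (x : Fin 2 → A), Structure.RelMap (L := LZ) (ZRel.d k) (f ∘ x) ↔
      Structure.RelMap (L := LZ) (ZRel.d k) x) : A ≃[LZ] B where
  toEquiv := f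
  map_fun' := fun g => Empty.elim g
  map_rel' := by
    rintro n ⟨k⟩ x
    exact h k x

/-- translation -/
def shift (t : ℤ) : ℤ ≃[LZ] ℤ :=
  mkEquiv (_root_.Equiv.addRight t) (fun k x => by
    rw [rel_iff, rel_iff]
    show x 1 + t - (x 0 + t) = k ↔ _
    constructor <;> intro h <;> omega)

theorem shift_apply (t x : ℤ) : shift t x = x + t := rfl

/-- two embeddings of the same structure have the same differences -/
theorem emb_diff {A : Type*} [LZ.Structure A] (f g : A ↪[LZ] ℤ) (a b : A) :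
    f b - f a = g b - g a := by
  have h1 := f.map_rel (ZRel.d (g b - g a)) ![a, b]
  have h2 := g.map_rel (ZRel.d (g b - g a)) ![a, b]
  have h3 : Structure.RelMap (L := LZ) (ZRel.d (g b - g a)) (g ∘ ![a, b]) := by
    rw [rel_iff]; rfl
  have h4 := h1.2 (h2.1 h3)
  rw [rel_iff] at h4
  exact h4

theorem ultra : LZ.IsUltrahomogeneous ℤ := by
  intro S _ f
  by_cases hS : Nonempty S
  · obtain ⟨s⟩ := hS
    refine ⟨shift (f s - s), ?_⟩
    ext x
    have := emb_diff f S.subtype s x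
    show f x = (x : ℤ) + (f s - s)
    have e1 : S.subtype x = (x : ℤ) := rfl
    have e2 : S.subtype s = (s : ℤ) := rfl
    omega
  · refine ⟨shift 0, ?_⟩
    ext x
    exact absurd ⟨x⟩ hS

/-- the same differences up to size `k` -/
def Sim {ι : Type} (k : ℕ) (w w' : ι → ℤ) : Prop :=
  ∀ (i j : ι) (c : ℤ), |c| ≤ k → (w j - w i = c ↔ w' j - w' i = c)

theorem Sim.symm {ι : Type} {k : ℕ} {w w' : ι → ℤ} (h : Sim k w w') : Sim k w' w :=
  fun i j c hc => (h i j c hc).symm

theorem Sim.mono {ι : Type} {k l : ℕ} {w w' : ι → ℤ} (h : Sim l w w') (hkl : k ≤ l) :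
    Sim k w w' :=
  fun i j c hc => h i j c (hc.trans (by exact_mod_cast hkl))

theorem Sim.comp {ι κ : Type} {k : ℕ} {w w' : ι → ℤ} (h : Sim k w w') (ρ : κ → ι) :
    Sim k (w ∘ ρ) (w' ∘ ρ) :=
  fun i j c hc => h (ρ i) (ρ j) c hc

theorem Sim.ext {ι : Type} [Finite ι] {k : ℕ} {w w' : ι → ℤ} (h : Sim (2 * k) w w') (x : ℤ) :
    ∃ x' : ℤ, Sim k (fun o : Option ι => o.elim x w) (fun o : Option ι => o.elim x' w') := by
  have hk : Sim k w w' := h.mono (by omega)
  by_cases hx : ∃ i, |x - w i| ≤ k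
  · obtain ⟨i0, hi0⟩ := hx
    rw [abs_le] at hi0
    refine ⟨w' i0 + (x - w i0), ?_⟩
    rintro (_ | i) (_ | j) c hc
    · simp
    · rw [abs_le] at hc
      have := h i0 j (c + (x - w i0)) (by rw [abs_le]; push_cast; omega)
      simp only [Option.elim]
      omega
    · rw [abs_le] at hc
      have := h i i0 (c - (x - w i0)) (by rw [abs_le]; push_cast; omega)
      simp only [Option.elim]
      omega
    · exact hk i j c hc
  · obtain ⟨R, hR⟩ := (Set.finite_range w').bddAbove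
    have hR' : ∀ i, w' i ≤ R := fun i => hR ⟨i, rfl⟩
    have hx' : ∀ i, (k : ℤ) < |x - w i| := fun i => lt_of_not_ge fun hh => hx ⟨i, hh⟩
    refine ⟨R + k + 1, ?_⟩
    rintro (_ | i) (_ | j) c hc
    · simp
    · have h1 := hx' j
      have h2 := hR' j
      rw [abs_le] at hc
      rw [lt_abs] at h1
      simp only [Option.elim]
      omega
    · have h1 := hx' i
      have h2 := hR' i
      rw [abs_le] at hc
      rw [lt_abs] at h1
      simp only [Option.elim]
      omega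
    · exact hk i j c hc

theorem term_var {β : Type} (t : LZ.Term β) : ∃ b, t = Term.var b := by
  cases t with
  | var b => exact ⟨b, rfl⟩
  | func f _ => exact Empty.elim f

theorem snoc_eq {α : Type} {n : ℕ} (v : α → ℤ) (xs : Fin n → ℤ) (a : ℤ) :
    Sum.elim v (Fin.snoc xs a : Fin (n + 1) → ℤ) =
      (fun o : Option (α ⊕ Fin n) => o.elim a (Sum.elim v xs)) ∘
        Sum.elim (fun x => some (Sum.inl x))
          (fun i : Fin (n + 1) => Fin.lastCases none (fun i => some (Sum.inr i)) i) := by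
  funext z
  rcases z with z | z
  · rfl
  · refine Fin.lastCases ?_ (fun i => ?_) z <;> simp

/-- every formula only sees differences up to a bounded size -/
theorem local_formula {α : Type} [Finite α] {n : ℕ} (φ : LZ.BoundedFormula α n) :
    ∃ k : ℕ, ∀ (v v' : α → ℤ) (xs xs' : Fin n → ℤ),
      Sim k (Sum.elim v xs) (Sum.elim v' xs') → (φ.Realize v xs ↔ φ.Realize v' xs') := by
  induction φ with
  | falsum => exact ⟨0, fun _ _ _ _ _ => Iff.rfl⟩
  | equal t₁ t₂ =>
    obtain ⟨a, rfl⟩ := term_var t₁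
    obtain ⟨b, rfl⟩ := term_var t₂
    refine ⟨0, fun v v' xs xs' h => ?_⟩
    have := h a b 0 (by simp)
    show Sum.elim v xs a = Sum.elim v xs b ↔ Sum.elim v' xs' a = Sum.elim v' xs' b
    omega
  | rel R ts =>
    cases R with
    | d c =>
      obtain ⟨a, ha⟩ := term_var (ts 0)
      obtain ⟨b, hb⟩ := term_var (ts 1)
      refine ⟨c.natAbs, fun v v' xs xs' h => ?_⟩
      have := h a b c (by simp)
      show (ts 1).realize (Sum.elim v xs) - (ts 0).realize (Sum.elim v xs) = c ↔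
        (ts 1).realize (Sum.elim v' xs') - (ts 0).realize (Sum.elim v' xs') = c
      rw [ha, hb]
      exact this
  | imp φ ψ ih1 ih2 =>
    obtain ⟨k, hk⟩ := ih1
    obtain ⟨l, hl⟩ := ih2
    refine ⟨max k l, fun v v' xs xs' h => ?_⟩
    rw [BoundedFormula.realize_imp, BoundedFormula.realize_imp,
      hk v v' xs xs' (h.mono (le_max_left _ _)), hl v v' xs xs' (h.mono (le_max_right _ _))]
  | all φ ih =>
    obtain ⟨k, hk⟩ := ih
    have key : ∀ (v v' : α → ℤ) xs xs', Sim (2 * k) (Sum.elim v xs) (Sum.elim v' xs') →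
        φ.all.Realize v' xs' → φ.all.Realize v xs := by
      intro v v' xs xs' h h'
      rw [BoundedFormula.realize_all] at h' ⊢
      intro a
      obtain ⟨a', ha'⟩ := h.ext a
      refine (hk v v' (Fin.snoc xs a) (Fin.snoc xs' a') ?_).2 (h' a')
      rw [snoc_eq, snoc_eq]
      exact ha'.comp _
    exact ⟨2 * k, fun v v' xs xs' h => ⟨key v' v xs' xs h.symm, key v v' xs xs' h⟩⟩

theorem local_formula' {α : Type} [Finite α] (φ : LZ.Formula α) :
    ∃ k : ℕ, ∀ (v v' : α → ℤ), Sim k v v' → (φ.Realize v ↔ φ.Realize v') := by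
  obtain ⟨k, hk⟩ := local_formula φ
  refine ⟨k, fun v v' h => ?_⟩
  rw [Formula.Realize, Formula.Realize]
  refine hk v v' _ _ ?_
  rintro (i | i) (j | j) c hc
  · exact h i j c hc
  · exact j.elim0
  · exact i.elim0
  · exact i.elim0

/-- on a finite set of tuples, outer parameters can be replaced by inner ones -/
theorem pull_back {L : FirstOrder.Language.{0, 0}} {M : Type} [L.Structure M] {N : Type u}
    [L.Structure N] (j : M ↪ₑ[L] N) {m n : ℕ} (e : Fin m → N) (φ : L.Formula (Fin m ⊕ Fin n))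
    {T : Type} [Finite T] (F : T → Fin n → M) :
    ∃ e' : Fin m → M, ∀ t, φ.Realize (Sum.elim e' (F t)) ↔
      φ.Realize (Sum.elim e (fun a => j (F t a))) := by
  classical
  let ρ : T → Fin m ⊕ Fin n → M ⊕ Fin m := fun t => Sum.elim Sum.inr (fun a => Sum.inl (F t a))
  let ψ : T → L.Formula (M ⊕ Fin m) := fun t =>
    if φ.Realize (Sum.elim e (fun a => j (F t a))) then φ.relabel (ρ t) else (φ.relabel (ρ t)).not
  have hN : ((Formula.iInf ψ).iExs (Fin m)).Realize ((j : M → N) ∘ id) := by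
    rw [Formula.realize_iExs]
    refine ⟨e, ?_⟩
    rw [Formula.realize_iInf]
    intro t
    have h1 : (fun a => Sum.elim ((j : M → N) ∘ id) e a) ∘ ρ t =
        Sum.elim e (fun a => j (F t a)) := by
      funext z
      rcases z with z | z <;> rfl
    by_cases ht : φ.Realize (Sum.elim e (fun a => j (F t a)))
    · simp only [ψ, if_pos ht]
      rw [Formula.realize_relabel, h1]
      exact ht
    · simp only [ψ, if_neg ht]
      rw [Formula.realize_not, Formula.realize_relabel, h1]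
      exact ht
  rw [j.map_formula, Formula.realize_iExs] at hN
  obtain ⟨e', he'⟩ := hN
  rw [Formula.realize_iInf] at he'
  refine ⟨e', fun t => ?_⟩
  have h2 := he' t
  have h1 : (fun a => Sum.elim (id : M → M) e' a) ∘ ρ t = Sum.elim e' (F t) := by
    funext z
    rcases z with z | z <;> rfl
  by_cases ht : φ.Realize (Sum.elim e (fun a => j (F t a)))
  · simp only [ψ, if_pos ht] at h2
    rw [Formula.realize_relabel, h1] at h2
    exact ⟨fun _ => ht, fun _ => h2⟩
  · simp only [ψ, if_neg ht] at h2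
    rw [Formula.realize_not, Formula.realize_relabel, h1] at h2
    exact ⟨fun h => absurd h h2, fun h => absurd h ht⟩

theorem far_window {m : ℕ} (e : Fin m → ℤ) (W : ℕ) :
    ∃ s : Fin (m + 1), ∀ i, (W : ℤ) < |e i - (s : ℕ) * (2 * W + 1)| := by
  by_contra hcon
  push Not at hcon
  choose g hg using hcon
  obtain ⟨s, t, hst, hg'⟩ := Fintype.exists_ne_map_eq_of_card_lt g (by simp)
  have h1 := hg s
  have h2 := hg t
  rw [hg'] at h1
  rw [abs_le] at h1 h2
  have hne : ((s : ℕ) : ℤ) ≠ ((t : ℕ) : ℤ) := fun h => hst (Fin.ext (by exact_mod_cast h))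
  have hW : (0 : ℤ) ≤ W := Int.natCast_nonneg W
  rcases lt_or_gt_of_ne hne with h | h
  · have : ((s : ℕ) : ℤ) + 1 ≤ ((t : ℕ) : ℤ) := h
    nlinarith
  · have : ((t : ℕ) : ℤ) + 1 ≤ ((s : ℕ) : ℤ) := h
    nlinarith

theorem arrow_M (n : ℕ) [LZ.Structure (Fin n)] (B : Type) [LZ.Structure B] [Finite B]
    (g0 : B ↪[LZ] ℤ) (χ : (Fin n ↪[LZ] ℤ) → Fin 2) (h : ExtDef.{u} LZ ℤ n χ) :
    MonoCopyIn LZ ℤ n B χ Set.univ := by
  classical
  obtain ⟨N, _, j, m, e, φ, hφ⟩ := h
  obtain ⟨k, hk⟩ := local_formula' (φ 0)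
  obtain ⟨R, hR⟩ := (Set.finite_range (fun b => (g0 b).natAbs)).bddAbove
  have hR' : ∀ b, |g0 b| ≤ (R : ℤ) := by
    intro b
    have : (g0 b).natAbs ≤ R := hR ⟨b, rfl⟩
    rw [Int.abs_eq_natAbs]
    exact_mod_cast this
  let tt : Fin (m + 1) → ℤ := fun s => (s : ℕ) * (2 * ((R + k : ℕ) : ℤ) + 1)
  obtain ⟨e', he'⟩ := pull_back j e (φ 0) (T := Fin (m + 1) × (Fin n → B))
    (fun p a => g0 (p.2 a) + tt p.1)
  obtain ⟨s, hs⟩ := far_window e' (R + k)
  refine ⟨(shift (tt s)).toEmbedding.comp g0, Set.subset_univ _, ?_⟩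
  have hform : ∀ f : Fin n ↪[LZ] ℤ,
      Set.range f ⊆ Set.range ((shift (tt s)).toEmbedding.comp g0) →
      (χ f = 0 ↔ (φ 0).Realize (Sum.elim e' (fun a => f a))) ∧
        ∀ a i, (k : ℤ) < |e' i - f a| := by
    intro f hf
    have : ∀ a, ∃ b, g0 b + tt s = f a := fun a => hf ⟨a, rfl⟩
    choose β hβ using this
    constructor
    · rw [hφ]
      have h1 := he' (s, β)
      simp only [hβ] at h1
      exact h1.symm
    · intro a i
      have h1 := hs i
      have h2 := hR' (β a)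
      have h3 := hβ a
      simp only [tt] at h3
      rw [abs_le] at h2
      rw [lt_abs] at h1 ⊢
      push_cast at h1 h3
      generalize ((s : ℕ) : ℤ) * (2 * ((R : ℤ) + (k : ℤ)) + 1) = T at h1 h3
      omega
  intro f f' hf hf'
  obtain ⟨h1, h2⟩ := hform f hf
  obtain ⟨h1', h2'⟩ := hform f' hf'
  have hsim : Sim k (Sum.elim e' (fun a => f a)) (Sum.elim e' (fun a => f' a)) := by
    rintro (i | a) (i' | a') c hc
    · exact Iff.rfl
    · have h3 := h2 a' i
      have h4 := h2' a' i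
      rw [abs_le] at hc
      rw [lt_abs] at h3 h4
      simp only [Sum.elim_inl, Sum.elim_inr]
      omega
    · have h3 := h2 a i'
      have h4 := h2' a i'
      rw [abs_le] at hc
      rw [lt_abs] at h3 h4
      simp only [Sum.elim_inl, Sum.elim_inr]
      omega
    · simp only [Sum.elim_inr]
      rw [emb_diff f f' a a']
  have h5 : χ f = 0 ↔ χ f' = 0 := by rw [h1, h1', hk _ _ hsim]
  revert h5
  generalize χ f = x
  generalize χ f' = y
  revert x y
  decide

theorem no_witness (n : ℕ) [LZ.Structure (Fin n)] (B : Type) [LZ.Structure B]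
    (g0 : B ↪[LZ] ℤ) (hB : Nontrivial (Fin n ↪[LZ] B)) (e : ℤ) (S : Set ℤ) (hS : S.Finite) :
    ∃ χ : (Fin n ↪[LZ] ℤ) → Fin 2, DefAt LZ ℤ n e χ ∧ ¬ MonoCopyIn LZ ℤ n B χ S := by
  classical
  obtain ⟨a0, f1, f2, hlt⟩ : ∃ (a0 : Fin n) (f1 f2 : Fin n ↪[LZ] B), g0 (f1 a0) < g0 (f2 a0) := by
    obtain ⟨f1, f2, hne⟩ := hB
    obtain ⟨a, ha⟩ : ∃ a, f1 a ≠ f2 a := by
      by_contra hc
      push Not at hc
      exact hne (Language.Embedding.ext hc)
    rcases lt_or_gt_of_ne (fun hh => ha (g0.injective hh)) with h1 | h1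
    · exact ⟨a, f1, f2, h1⟩
    · exact ⟨a, f2, f1, h1⟩
  set D : ℤ := g0 (f2 a0) - g0 (f1 a0) with hD
  have hD0 : D ≠ 0 := by omega
  let F : Set ℤ := {x | x ∈ S ∧ Even (x / D)}
  have hF : F.Finite := hS.subset (fun x hx => hx.1)
  haveI : Finite F := hF
  refine ⟨fun f => if f a0 ∈ F then 0 else 1, ?_, ?_⟩
  · let φ0 : LZ.Formula (Fin 1 ⊕ Fin n) :=
      Formula.iSup (fun c : F => Relations.formula₂ (L := LZ) (ZRel.d ((c : ℤ) - e))
        (Term.var (Sum.inl 0)) (Term.var (Sum.inr a0)))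
    refine ⟨![φ0, φ0.not], ?_⟩
    intro f i
    have h0 : φ0.Realize (Sum.elim (fun _ => e) (fun a => f a)) ↔ f a0 ∈ F := by
      simp only [φ0, Formula.realize_iSup, Formula.realize_rel₂]
      constructor
      · rintro ⟨c, hc⟩
        have h1 : f a0 - e = (c : ℤ) - e := hc
        rw [sub_left_inj] at h1
        rw [h1]
        exact c.2
      · intro hc
        exact ⟨⟨f a0, hc⟩, (rfl : f a0 - e = f a0 - e)⟩
    fin_cases i
    · simp only [Fin.zero_eta, Matrix.cons_val_zero]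
      rw [h0]
      by_cases hx : f a0 ∈ F <;> simp [hx]
    · simp only [Fin.mk_one, Matrix.cons_val_one, Matrix.cons_val_zero, Formula.realize_not]
      rw [h0]
      by_cases hx : f a0 ∈ F <;> simp [hx]
  · rintro ⟨g, hg, hmono⟩
    have h1 := hmono (g.comp f1) (g.comp f2) (by rintro _ ⟨i, rfl⟩; exact ⟨f1 i, rfl⟩)
      (by rintro _ ⟨i, rfl⟩; exact ⟨f2 i, rfl⟩)
    have e1 : (g.comp f1) a0 = g (f1 a0) := rfl
    have e2 : (g.comp f2) a0 = g (f1 a0) + 1 * D := by
      have := emb_diff g g0 (f1 a0) (f2 a0)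
      show g (f2 a0) = _
      omega
    have m1 : g (f1 a0) ∈ S := hg ⟨f1 a0, rfl⟩
    have m2 : g (f1 a0) + 1 * D ∈ S := e2 ▸ hg ⟨f2 a0, rfl⟩
    simp only [e1, e2, F, Set.mem_ofPred_eq, m1, m2, true_and, Int.add_mul_ediv_right _ _ hD0,
      Int.even_add_one] at h1
    by_cases hx : Even (g (f1 a0) / D) <;> simp [hx] at h1

theorem defAt_extDef {L : FirstOrder.Language.{0, 0}} {M : Type} [L.Structure M] {n : ℕ}
    [L.Structure (Fin n)] {e : M} {χ : (Fin n ↪[L] M) → Fin 2} (h : DefAt L M n e χ) :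
    ExtDef.{u} L M n χ := by
  obtain ⟨φ, hφ⟩ := h
  letI : L.Structure (ULift.{u} M) := _root_.Equiv.inducedStructure _root_.Equiv.ulift.symm
  let j : M ↪ₑ[L] ULift.{u} M :=
    (_root_.Equiv.inducedStructureEquiv _root_.Equiv.ulift.symm).toElementaryEmbedding
  refine ⟨ULift.{u} M, inferInstance, j, 1, fun _ => j e, φ, fun f i => ?_⟩
  rw [hφ, ← j.map_formula]
  have : (j : M → ULift.{u} M) ∘ Sum.elim (fun _ : Fin 1 => e) (fun a => f a) =
      Sum.elim (fun _ : Fin 1 => j e) (fun a => j (f a)) := by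
    funext z
    rcases z with z | z <;> rfl
  rw [this]

def subEmb {A : Type} (ι : A → ℤ) (hι : Function.Injective ι) :
    @Language.Embedding LZ A ℤ (zS ι) zInt :=
  letI := zS ι
  mkEmb ⟨ι, hι⟩ (fun _ _ => Iff.rfl)

def ptEmb (b : Fin 2) : @Language.Embedding LZ (Fin 1) (Fin 2) (zS fun _ => 0)
    (zS fun i => ((i : ℕ) : ℤ)) :=
  letI : LZ.Structure (Fin 1) := zS fun _ => 0
  letI : LZ.Structure (Fin 2) := zS fun i => ((i : ℕ) : ℤ)
  mkEmb ⟨fun _ => b, fun _ _ _ => Subsingleton.elim _ _⟩ (fun k x => by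
    show ((b : ℕ) : ℤ) - ((b : ℕ) : ℤ) = k ↔ (0 : ℤ) - 0 = k
    simp)

theorem main : ∃ (L : FirstOrder.Language.{0, 0}) (_ : L.IsRelational) (_ : Countable L.Symbols)
    (M : Type) (_ : L.Structure M), Countable M ∧ Infinite M ∧ L.IsUltrahomogeneous M ∧
    (∃ (n : ℕ) (_ : L.Structure (Fin n)) (B : Type) (_ : L.Structure B),
      n = 1 ∧ Finite B ∧ Nonempty (Fin n ↪[L] M) ∧ Nonempty (B ↪[L] M) ∧
      (∀ χ : (Fin n ↪[L] M) → Fin 2, ExtDef.{u} L M n χ → MonoCopyIn L M n B χ Set.univ) ∧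
      ¬ ∃ (C : Type) (_ : L.Structure C), Finite C ∧ Nonempty (C ↪[L] M) ∧
        ∀ (h : C ↪[L] M) (χ : (Fin n ↪[L] M) → Fin 2),
          ExtDef.{u} L M n χ → MonoCopyIn L M n B χ (Set.range h)) ∧
    ∀ (n : ℕ) (_ : L.Structure (Fin n)) (B : Type) (_ : L.Structure B),
      Finite B → Nonempty (B ↪[L] M) →
      (∀ χ : (Fin n ↪[L] M) → Fin 2, ExtDef.{u} L M n χ → MonoCopyIn L M n B χ Set.univ) ∧
      (Nontrivial (Fin n ↪[L] B) → ∀ (e : M) (S : Set M), S.Finite →
        ∃ χ : (Fin n ↪[L] M) → Fin 2, DefAt L M n e χ ∧ ¬ MonoCopyIn L M n B χ S) := by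
  refine ⟨LZ, lzRel, lz_countable, ℤ, zInt, inferInstance, inferInstance, ultra, ?_, ?_⟩
  · letI s1 : LZ.Structure (Fin 1) := zS fun _ => 0
    letI s2 : LZ.Structure (Fin 2) := zS fun i => ((i : ℕ) : ℤ)
    have g0 : Fin 2 ↪[LZ] ℤ := subEmb (fun i : Fin 2 => ((i : ℕ) : ℤ))
      (fun a b h => Fin.ext (Int.ofNat_inj.1 h))
    have hnt : Nontrivial (Fin 1 ↪[LZ] Fin 2) := by
      refine ⟨ptEmb 0, ptEmb 1, fun h => ?_⟩
      have : (0 : Fin 2) = 1 := congrArg (fun f : Fin 1 ↪[LZ] Fin 2 => f 0) h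
      exact absurd this (by decide)
    refine ⟨1, s1, Fin 2, s2, rfl, inferInstance, ⟨g0.comp (ptEmb 0)⟩, ⟨g0⟩,
      arrow_M 1 (Fin 2) g0, ?_⟩
    rintro ⟨C, _, hC, ⟨h⟩, hall⟩
    obtain ⟨χ, h1, h2⟩ := no_witness 1 (Fin 2) g0 hnt 0 _ (Set.finite_range h)
    exact h2 (hall h χ (defAt_extDef h1))
  · rintro n _ B _ hB ⟨g0⟩
    exact ⟨arrow_M n B g0, no_witness n B g0⟩

end Pool.Agent.P.MP_5814e0_lc.One
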