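import Mathlib
import Pool.Agent.P.MP_5814e0_lc.OneMain

set_option autoImplicit false
set_option linter.style.haveILetI false

namespace Pool.Agent.P.MP_5814e0_lc.Out

open FirstOrder FirstOrder.Language

universe u v

/-- Two binary relation symbols. -/
inductive ORel : ℕ → Type
  | lt : ORel 2
  | eqv : ORel 2

/-- The language of an order and an equivalence relation. -/
abbrev LO : FirstOrder.Language.{0, 0} := ⟨fun _ => Empty, ORel⟩

theorem loRel : LO.IsRelational := fun _ => inferInstanceAs (IsEmpty Empty)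

theorem lo_finite : Finite LO.Symbols := by
  refine Finite.of_surjective (α := Bool)
    (fun b => cond b (Sum.inr ⟨2, ORel.lt⟩) (Sum.inr ⟨2, ORel.eqv⟩)) ?_
  rintro (⟨l, f⟩ | ⟨l, r⟩)
  · exact Empty.elim f
  · cases r
    · exact ⟨true, rfl⟩
    · exact ⟨false, rfl⟩

/-- The points: a class and a rational number. -/
structure OM : Type where
  c : ℕ
  q : ℚ

theorem om_countable : Countable OM :=
  Function.Injective.countable (f := fun x : OM => (x.c, x.q)) (by
    rintro ⟨a, b⟩ ⟨c, d⟩ h
    simp only [Prod.mk.injEq] at h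
    rw [h.1, h.2])

theorem om_infinite : Infinite OM :=
  Infinite.of_injective (fun n : ℕ => (⟨n, 0⟩ : OM)) fun _ _ h => congrArg OM.c h

/-- The position of a point on the real line. -/
noncomputable def val (x : OM) : ℝ := x.q + x.c * √2

theorem val_inj : Function.Injective val := by
  rintro ⟨a, p⟩ ⟨b, q⟩ h
  simp only [val] at h
  by_cases hab : a = b
  · subst hab
    have : (p : ℝ) = q := by linarith
    rw [Rat.cast_injective this]
  · exfalso
    have h1 : ((a : ℝ) - b) ≠ 0 := sub_ne_zero.2 (by exact_mod_cast hab)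
    refine irrational_sqrt_two ⟨(q - p) / ((a : ℚ) - b), ?_⟩
    push_cast
    rw [div_eq_iff h1]
    linarith

theorem exists_val (c : ℕ) {a b : ℝ} (h : a < b) : ∃ x : OM, x.c = c ∧ a < val x ∧ val x < b := by
  obtain ⟨q, h1, h2⟩ := exists_rat_btwn (sub_lt_sub_right h (c * √2))
  exact ⟨⟨c, q⟩, rfl, by simp only [val]; linarith, by simp only [val]; linarith⟩

/-- The structure induced by a map to the points. -/
@[instance_reducible]
def oS {A : Type v} (ι : A → OM) : LO.Structure A where
  funMap := fun f _ => Empty.elim f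
  RelMap := fun {l} r => match l, r with
    | _, ORel.lt => fun x => val (ι (x 0)) < val (ι (x 1))
    | _, ORel.eqv => fun x => (ι (x 0)).c = (ι (x 1)).c

/-- The structure on the points. -/
instance oM : LO.Structure OM := oS id

def mkEmb {A B : Type*} [LO.Structure A] [LO.Structure B] (f : A ↪ B)
    (h : ∀ (r : ORel 2) (x : Fin 2 → A), Structure.RelMap (L := LO) r (f ∘ x) ↔
      Structure.RelMap (L := LO) r x) : A ↪[LO] B where
  toEmbedding := f
  map_fun' := fun g => Empty.elim g
  map_rel' := by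
    intro n r x
    cases r
    · exact h _ x
    · exact h _ x

/-- the same order and the same classes -/
def Sim {ι : Type} (w w' : ι → OM) : Prop :=
  ∀ i j, (val (w i) < val (w j) ↔ val (w' i) < val (w' j)) ∧
    ((w i).c = (w j).c ↔ (w' i).c = (w' j).c)

theorem Sim.symm {ι : Type} {w w' : ι → OM} (h : Sim w w') : Sim w' w :=
  fun i j => ⟨(h i j).1.symm, (h i j).2.symm⟩

theorem Sim.comp {ι κ : Type} {w w' : ι → OM} (h : Sim w w') (ρ : κ → ι) :
    Sim (w ∘ ρ) (w' ∘ ρ) :=
  fun i j => h (ρ i) (ρ j)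

theorem Sim.eq {ι : Type} {w w' : ι → OM} (h : Sim w w') {i j : ι} (e : w i = w j) :
    w' i = w' j := by
  have h1 := (h i j).1
  have h2 := (h j i).1
  rw [e] at h1 h2
  exact val_inj (le_antisymm (not_lt.1 fun x => lt_irrefl _ (h2.2 x))
    (not_lt.1 fun x => lt_irrefl _ (h1.2 x)))

theorem emb_sim {A : Type} [LO.Structure A] (f g : A ↪[LO] OM) : Sim f g := fun a b =>
  ⟨(f.map_rel ORel.lt ![a, b]).trans (g.map_rel ORel.lt ![a, b]).symm,
    (f.map_rel ORel.eqv ![a, b]).trans (g.map_rel ORel.eqv ![a, b]).symm⟩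

theorem Sim.ext {ι : Type} [Finite ι] {w w' : ι → OM} (h : Sim w w') (x : OM) :
    ∃ x' : OM, Sim (fun o : Option ι => o.elim x w) (fun o : Option ι => o.elim x' w') := by
  classical
  by_cases hx : ∃ i, w i = x
  · obtain ⟨i0, rfl⟩ := hx
    refine ⟨w' i0, ?_⟩
    rintro (_ | i) (_ | j)
    · exact h i0 i0
    · exact h i0 j
    · exact h i i0
    · exact h i j
  · haveI := Fintype.ofFinite ι
    obtain ⟨c, hc⟩ : ∃ c : ℕ, ∀ i, (x.c = (w i).c ↔ c = (w' i).c) := by
      by_cases hc : ∃ i, x.c = (w i).c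
      · obtain ⟨i0, hi0⟩ := hc
        exact ⟨(w' i0).c, fun i => by rw [hi0]; exact (h i0 i).2⟩
      · obtain ⟨R, hR⟩ := (Set.finite_range fun i => (w' i).c).bddAbove
        refine ⟨R + 1, fun i => ⟨fun e => absurd ⟨i, e⟩ hc, fun e => ?_⟩⟩
        have : (w' i).c ≤ R := hR ⟨i, rfl⟩
        omega
    obtain ⟨a, ha1, ha2⟩ := Order.exists_between_finsets
      ((Finset.univ.filter fun i => val (w i) < val x).image fun i => val (w' i))
      ((Finset.univ.filter fun i => val x < val (w i)).image fun i => val (w' i)) (by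
        intro y hy z hz
        obtain ⟨i, hi, rfl⟩ := Finset.mem_image.1 hy
        obtain ⟨j, hj, rfl⟩ := Finset.mem_image.1 hz
        exact (h i j).1.1 ((Finset.mem_filter.1 hi).2.trans (Finset.mem_filter.1 hj).2))
    obtain ⟨b, hb1, hb2⟩ := Order.exists_between_finsets {a}
      ((Finset.univ.filter fun i => val x < val (w i)).image fun i => val (w' i)) (by
        intro y hy z hz
        rw [Finset.mem_singleton.1 hy]
        exact ha2 z hz)
    obtain ⟨x', hx1, hx2, hx3⟩ := exists_val c (hb1 a (Finset.mem_singleton_self a))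
    have lo : ∀ i, val (w i) < val x → val (w' i) < val x' := fun i hi =>
      (ha1 _ (Finset.mem_image.2 ⟨i, Finset.mem_filter.2 ⟨Finset.mem_univ _, hi⟩, rfl⟩)).trans hx2
    have hi : ∀ i, val x < val (w i) → val x' < val (w' i) := fun i hi =>
      hx3.trans (hb2 _ (Finset.mem_image.2 ⟨i, Finset.mem_filter.2 ⟨Finset.mem_univ _, hi⟩, rfl⟩))
    have tri : ∀ i, val (w i) < val x ∨ val x < val (w i) := fun i =>
      lt_or_gt_of_ne fun e => hx ⟨i, val_inj e⟩
    refine ⟨x', ?_⟩
    rintro (_ | i) (_ | j)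
    · simp
    · refine ⟨⟨hi j, fun e => (tri j).resolve_left fun e' => lt_asymm e (lo j e')⟩, ?_⟩
      show x.c = (w j).c ↔ x'.c = (w' j).c
      rw [hx1]
      exact hc j
    · refine ⟨⟨lo i, fun e => (tri i).resolve_right fun e' => lt_asymm e (hi i e')⟩, ?_⟩
      show (w i).c = x.c ↔ (w' i).c = x'.c
      rw [hx1, eq_comm, hc i, eq_comm]
    · exact h i j

theorem ultra : LO.IsUltrahomogeneous OM := by
  classical
  haveI := loRel
  haveI := om_countable
  rw [isUltrahomogeneous_iff_IsExtensionPair Structure.cg_of_countable,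
    isExtensionPair_iff_exists_embedding_closure_singleton_sup]
  intro S hS f m
  haveI : Finite S := hS.finite
  have hmem : ∀ y : OM, y ∈ (Substructure.closure LO {m} ⊔ S : LO.Substructure OM) →
      y ∉ S → y = m := by
    intro y hy hn
    rw [← S.closure_eq, ← Substructure.closure_union,
      Substructure.mem_closure_iff_of_isRelational] at hy
    exact hy.resolve_right hn
  obtain ⟨m', hm'⟩ := (emb_sim S.subtype f).ext m
  let ρ : (Substructure.closure LO {m} ⊔ S : LO.Substructure OM) → Option S := fun y =>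
    if h : (y : OM) ∈ S then some ⟨y, h⟩ else none
  have h1 : ∀ y, (ρ y).elim m S.subtype = (y : OM) := by
    intro y
    by_cases h : (y : OM) ∈ S
    · simp only [ρ, dif_pos h]
      rfl
    · simp only [ρ, dif_neg h]
      exact (hmem y y.2 h).symm
  have h2 : Sim (fun y : (Substructure.closure LO {m} ⊔ S : LO.Substructure OM) => (y : OM))
      (fun y => (ρ y).elim m' f) := by
    intro y z
    have := hm' (ρ y) (ρ z)
    simp only [h1] at this
    exact this
  refine ⟨mkEmb ⟨fun y => (ρ y).elim m' f, fun y z e => Subtype.ext (h2.symm.eq e)⟩ ?_, ?_⟩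
  · intro r x
    cases r
    · exact (h2 (x 0) (x 1)).1.symm
    · exact (h2 (x 0) (x 1)).2.symm
  · refine Language.Embedding.ext fun s => ?_
    show f s = (ρ ⟨s, _⟩).elim m' f
    simp only [ρ, dif_pos s.2]
    rfl

theorem term_var {β : Type} (t : LO.Term β) : ∃ b, t = Term.var b := by
  cases t with
  | var b => exact ⟨b, rfl⟩
  | func f _ => exact Empty.elim f

theorem snoc_eq {α : Type} {n : ℕ} (v : α → OM) (xs : Fin n → OM) (a : OM) :
    Sum.elim v (Fin.snoc xs a : Fin (n + 1) → OM) =
      (fun o : Option (α ⊕ Fin n) => o.elim a (Sum.elim v xs)) ∘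
        Sum.elim (fun x => some (Sum.inl x))
          (fun i : Fin (n + 1) => Fin.lastCases none (fun i => some (Sum.inr i)) i) := by
  funext z
  rcases z with z | z
  · rfl
  · refine Fin.lastCases ?_ (fun i => ?_) z <;> simp

/-- similar tuples satisfy the same formulas -/
theorem inv_formula {α : Type} [Finite α] {n : ℕ} (φ : LO.BoundedFormula α n) :
    ∀ (v v' : α → OM) (xs xs' : Fin n → OM),
      Sim (Sum.elim v xs) (Sum.elim v' xs') → (φ.Realize v xs ↔ φ.Realize v' xs') := by
  induction φ with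
  | falsum => exact fun _ _ _ _ _ => Iff.rfl
  | equal t₁ t₂ =>
    obtain ⟨a, rfl⟩ := term_var t₁
    obtain ⟨b, rfl⟩ := term_var t₂
    exact fun v v' xs xs' h => ⟨fun e => h.eq e, fun e => h.symm.eq e⟩
  | rel R ts =>
    cases R with
    | lt =>
      obtain ⟨a, ha⟩ := term_var (ts 0)
      obtain ⟨b, hb⟩ := term_var (ts 1)
      intro v v' xs xs' h
      show val ((ts 0).realize (Sum.elim v xs)) < val ((ts 1).realize (Sum.elim v xs)) ↔
        val ((ts 0).realize (Sum.elim v' xs')) < val ((ts 1).realize (Sum.elim v' xs'))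
      rw [ha, hb]
      exact (h a b).1
    | eqv =>
      obtain ⟨a, ha⟩ := term_var (ts 0)
      obtain ⟨b, hb⟩ := term_var (ts 1)
      intro v v' xs xs' h
      show ((ts 0).realize (Sum.elim v xs)).c = ((ts 1).realize (Sum.elim v xs)).c ↔
        ((ts 0).realize (Sum.elim v' xs')).c = ((ts 1).realize (Sum.elim v' xs')).c
      rw [ha, hb]
      exact (h a b).2
  | imp φ ψ ih1 ih2 =>
    intro v v' xs xs' h
    rw [BoundedFormula.realize_imp, BoundedFormula.realize_imp, ih1 v v' xs xs' h,
      ih2 v v' xs xs' h]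
  | all φ ih =>
    have key : ∀ (v v' : α → OM) xs xs', Sim (Sum.elim v xs) (Sum.elim v' xs') →
        φ.all.Realize v' xs' → φ.all.Realize v xs := by
      intro v v' xs xs' h h'
      rw [BoundedFormula.realize_all] at h' ⊢
      intro a
      obtain ⟨a', ha'⟩ := h.ext a
      refine (ih v v' (Fin.snoc xs a) (Fin.snoc xs' a') ?_).2 (h' a')
      rw [snoc_eq, snoc_eq]
      exact ha'.comp _
    exact fun v v' xs xs' h => ⟨key v' v xs' xs h.symm, key v v' xs xs' h⟩

theorem inv_formula' {α : Type} [Finite α] (φ : LO.Formula α) {v v' : α → OM} (h : Sim v v') :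
    φ.Realize v ↔ φ.Realize v' := by
  rw [Formula.Realize, Formula.Realize]
  refine inv_formula φ v v' _ _ ?_
  rintro (i | i) (j | j)
  · exact h i j
  · exact j.elim0
  · exact i.elim0
  · exact i.elim0

end Pool.Agent.P.MP_5814e0_lc.Out
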