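import Mathlib
import Pool.Agent.P.MP_5814e0_lc.OutA
import Pool.Agent.P.MP_5814e0_lc.OutDefs

set_option autoImplicit false
set_option linter.style.haveILetI false

namespace Pool.Agent.P.MP_5814e0_lc.Out

open FirstOrder FirstOrder.Language

universe u

theorem one_le_s : (1 : ℝ) ≤ √2 := Real.one_le_sqrt.2 (by norm_num)

theorem val_shift (t : ℕ) (x : OM) : val ⟨x.c + t, x.q⟩ = val x + t * √2 := by
  simp only [val]
  push_cast
  ring

/-- moving all classes up -/
def shift (t : ℕ) : OM ↪[LO] OM :=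
  mkEmb ⟨fun x => ⟨x.c + t, x.q⟩, fun x y h => val_inj (by
      have := congrArg val h
      simp only [val_shift] at this
      linarith)⟩ (fun r x => by
    cases r
    · show val ⟨(x 0).c + t, (x 0).q⟩ < val ⟨(x 1).c + t, (x 1).q⟩ ↔ val (x 0) < val (x 1)
      rw [val_shift, val_shift, add_lt_add_iff_right]
    · show (x 0).c + t = (x 1).c + t ↔ (x 0).c = (x 1).c
      omega)

theorem arrow_M (n : ℕ) [LO.Structure (Fin n)] (B : Type) [LO.Structure B] [Finite B]
    (g0 : B ↪[LO] OM) (χ : (Fin n ↪[LO] OM) → Fin 2) (h : ExtDef.{u} LO OM n χ) :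
    MonoCopyIn LO OM n B χ Set.univ := by
  classical
  obtain ⟨N, _, j, m, e, φ, hφ⟩ := h
  obtain ⟨R, hR⟩ := (Set.finite_range fun b => |val (g0 b)| + (g0 b).c).bddAbove
  obtain ⟨K0, hK0⟩ := exists_nat_gt R
  have hR' : ∀ b, |val (g0 b)| + (g0 b).c < K0 := fun b => lt_of_le_of_lt (hR ⟨b, rfl⟩) hK0
  have hv : ∀ b, -(K0 : ℝ) ≤ val (g0 b) ∧ val (g0 b) < K0 := fun b => by
    have h1 := hR' b
    have h2 : (0 : ℝ) ≤ (g0 b).c := Nat.cast_nonneg _
    have h3 := le_abs_self (val (g0 b))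
    have h4 := neg_abs_le (val (g0 b))
    constructor <;> linarith
  have hc : ∀ b, (g0 b).c < 2 * K0 + 1 := fun b => by
    have h1 := hR' b
    have h2 := abs_nonneg (val (g0 b))
    have h3 : ((g0 b).c : ℝ) < K0 := by linarith
    have h4 : (g0 b).c < K0 := by exact_mod_cast h3
    omega
  obtain ⟨K, hK⟩ : ∃ K, K = 2 * K0 + 1 := ⟨_, rfl⟩
  rw [← hK] at hc
  have hKr : (K : ℝ) = 2 * K0 + 1 := by rw [hK]; push_cast; ring
  have hK1 : (0 : ℝ) ≤ K0 := Nat.cast_nonneg _
  have hD : 2 * (K0 : ℝ) + 1 ≤ K * √2 := by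
    rw [← hKr]
    exact le_mul_of_one_le_right (Nat.cast_nonneg _) one_le_s
  have hD0 : 0 < (K : ℝ) * √2 := by linarith
  obtain ⟨e', he'⟩ := One.pull_back j e (φ 0) (T := Fin (2 * m + 1) × (Fin n → B))
    (fun p a => shift (p.1 * K) (g0 (p.2 a)))
  obtain ⟨s, hs, hs'⟩ : ∃ s ∈ Finset.range (2 * m + 1), s ∉ Finset.univ.image
      (Sum.elim (fun i => (e' i).c / K) (fun i => ⌊(val (e' i) + K0) / (K * √2)⌋₊) :
        Fin m ⊕ Fin m → ℕ) :=
    Finset.exists_mem_notMem_of_card_lt_card (lt_of_le_of_lt Finset.card_image_le (by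
      simp only [Finset.card_univ, Fintype.card_sum, Fintype.card_fin, Finset.card_range]
      omega))
  have hs1 : ∀ i, (e' i).c / K ≠ s := fun i hh =>
    hs' (Finset.mem_image.2 ⟨Sum.inl i, Finset.mem_univ _, hh⟩)
  have hs2 : ∀ i, ⌊(val (e' i) + K0) / (K * √2)⌋₊ ≠ s := fun i hh =>
    hs' (Finset.mem_image.2 ⟨Sum.inr i, Finset.mem_univ _, hh⟩)
  have hside : ∀ i, val (e' i) + K0 < s * (K * √2) ∨ (s + 1) * (K * √2) ≤ val (e' i) + K0 := by
    intro i
    by_contra hcon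
    push Not at hcon
    have h0 : 0 ≤ (s : ℝ) * (K * √2) := by positivity
    refine hs2 i ((Nat.floor_eq_iff (div_nonneg (h0.trans hcon.1) hD0.le)).2 ⟨?_, ?_⟩)
    · exact (le_div_iff₀ hD0).2 hcon.1
    · exact (div_lt_iff₀ hD0).2 hcon.2
  refine ⟨(shift (s * K)).comp g0, Set.subset_univ _, ?_⟩
  have hform : ∀ f : Fin n ↪[LO] OM, Set.range f ⊆ Set.range ((shift (s * K)).comp g0) →
      (χ f = 0 ↔ (φ 0).Realize (Sum.elim e' (fun a => f a))) ∧
        ∀ a, (f a).c / K = s ∧ s * (K * √2) ≤ val (f a) + K0 ∧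
          val (f a) + K0 < (s + 1) * (K * √2) := by
    intro f hf
    have : ∀ a, ∃ b, shift (s * K) (g0 b) = f a := fun a => hf ⟨a, rfl⟩
    choose β hβ using this
    constructor
    · rw [hφ]
      have h1 := he' (⟨s, Finset.mem_range.1 hs⟩, β)
      simp only [hβ] at h1
      exact h1.symm
    · intro a
      have h1 : val (f a) = val (g0 (β a)) + s * (K * √2) := by
        rw [← hβ a]
        refine (val_shift _ _).trans ?_
        push_cast
        ring
      have h2 : (f a).c = (g0 (β a)).c + s * K := by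
        rw [← hβ a]
        rfl
      have h3 := hv (β a)
      refine ⟨?_, by linarith [h3.1], by linarith [h3.2]⟩
      rw [h2, Nat.add_mul_div_right _ _ (by omega), Nat.div_eq_of_lt (hc _), zero_add]
  intro f f' hf hf'
  obtain ⟨h1, h2⟩ := hform f hf
  obtain ⟨h1', h2'⟩ := hform f' hf'
  have hne : ∀ i a, (e' i).c ≠ (f a).c := fun i a hh => hs1 i (hh ▸ (h2 a).1)
  have hne' : ∀ i a, (e' i).c ≠ (f' a).c := fun i a hh => hs1 i (hh ▸ (h2' a).1)
  have hsim : Sim (Sum.elim e' (fun a => f a)) (Sum.elim e' (fun a => f' a)) := by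
    rintro (i | a) (i' | a')
    · exact ⟨Iff.rfl, Iff.rfl⟩
    · obtain ⟨-, h3, h4⟩ := h2 a'
      obtain ⟨-, h5, h6⟩ := h2' a'
      refine ⟨?_, iff_of_false (hne i a') (hne' i a')⟩
      show val (e' i) < val (f a') ↔ val (e' i) < val (f' a')
      rcases hside i with h7 | h7
      · exact iff_of_true (by linarith) (by linarith)
      · exact iff_of_false (by linarith) (by linarith)
    · obtain ⟨-, h3, h4⟩ := h2 a
      obtain ⟨-, h5, h6⟩ := h2' a
      refine ⟨?_, iff_of_false (hne i' a).symm (hne' i' a).symm⟩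
      show val (f a) < val (e' i') ↔ val (f' a) < val (e' i')
      rcases hside i' with h7 | h7
      · exact iff_of_false (by linarith) (by linarith)
      · exact iff_of_true (by linarith) (by linarith)
    · exact emb_sim f f' a a'
  have h5 : χ f = 0 ↔ χ f' = 0 := by rw [h1, h1', inv_formula' _ hsim]
  revert h5
  generalize χ f = x
  generalize χ f' = y
  revert x y
  decide

open Classical in
/-- opening a gap -/
noncomputable def gap (x : OM) : OM := ⟨x.c, if 0 < val x then x.q + 1 else x.q⟩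

theorem val_gap (x : OM) : (0 < val x ∧ val (gap x) = val x + 1) ∨
    (val x ≤ 0 ∧ val (gap x) = val x) := by
  by_cases h : 0 < val x
  · refine Or.inl ⟨h, ?_⟩
    rw [gap, if_pos h]
    simp only [val]
    push_cast
    ring
  · refine Or.inr ⟨not_lt.1 h, ?_⟩
    rw [gap, if_neg h]

theorem sim_gap {ι : Type} (w : ι → OM) : Sim (gap ∘ w) w := by
  intro i j
  refine ⟨?_, Iff.rfl⟩
  show val (gap (w i)) < val (gap (w j)) ↔ val (w i) < val (w j)
  rcases val_gap (w i) with ⟨h1, h2⟩ | ⟨h1, h2⟩ <;>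
    rcases val_gap (w j) with ⟨h3, h4⟩ | ⟨h3, h4⟩ <;>
    rw [h2, h4] <;> constructor <;> intro h <;> linarith

/-- the gap map is elementary -/
noncomputable def gapE : OM ↪ₑ[LO] OM :=
  ⟨gap, fun _ φ x => inv_formula' φ (sim_gap x)⟩

theorem outDef_of {n : ℕ} [LO.Structure (Fin n)] {χ : (Fin n ↪[LO] OM) → Fin 2} {m : ℕ}
    (e : Fin m → OM) (he : ∀ i, e i ∉ Set.range gap) (φ : Fin 2 → LO.Formula (Fin m ⊕ Fin n))
    (hφ : ∀ (f : Fin n ↪[LO] OM) (i : Fin 2),
      χ f = i ↔ (φ i).Realize (Sum.elim e (fun a => gap (f a)))) : OutDef.{u} LO OM n χ := by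
  letI : LO.Structure (ULift.{u} OM) := _root_.Equiv.inducedStructure _root_.Equiv.ulift.symm
  let j : OM ↪ₑ[LO] ULift.{u} OM :=
    (_root_.Equiv.inducedStructureEquiv _root_.Equiv.ulift.symm).toElementaryEmbedding
  refine ⟨ULift.{u} OM, inferInstance, j.comp gapE, m, fun i => j (e i), φ, ?_, fun f i => ?_⟩
  · rintro i ⟨x, hx⟩
    exact he i ⟨x, j.injective hx⟩
  · rw [hφ, ← j.map_formula]
    have : (j : OM → ULift.{u} OM) ∘ Sum.elim e (fun a => gap (f a)) =
        Sum.elim (fun i => j (e i)) (fun a => (j.comp gapE) (f a)) := by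
      funext z
      rcases z with z | z <;> rfl
    rw [this]

/-- the pair -/
def pA : Fin 2 → OM := ![⟨0, 0⟩, ⟨1, 0⟩]

/-- the triple -/
def pB : Fin 3 → OM := ![⟨0, 0⟩, ⟨1, 0⟩, ⟨0, 2⟩]

theorem s_lt : √2 < (2 : ℝ) := Real.sqrt_lt' (by norm_num) |>.2 (by norm_num)

theorem pA_inj : Function.Injective pA := by
  intro a b h
  fin_cases a <;> fin_cases b <;> simp_all [pA]

theorem pB_inj : Function.Injective pB := by
  intro a b h
  fin_cases a <;> fin_cases b <;> simp_all [pB]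

def subEmb {A : Type} (ι : A → OM) (hι : Function.Injective ι) :
    @Language.Embedding LO A OM (oS ι) oM :=
  letI := oS ι
  mkEmb ⟨ι, hι⟩ (fun r _ => by cases r <;> exact Iff.rfl)

def simEmb {A B : Type} (ι : A → OM) (hι : Function.Injective ι) (κ : B → OM) (ρ : A → B)
    (h : Sim (κ ∘ ρ) ι) : @Language.Embedding LO A B (oS ι) (oS κ) :=
  letI := oS ι
  letI := oS κ
  mkEmb ⟨ρ, fun a b e => hι (h.eq (congrArg κ e))⟩ (fun r x => by
    cases r
    · exact (h (x 0) (x 1)).1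
    · exact (h (x 0) (x 1)).2)

theorem sim1 : Sim (pB ∘ ![0, 1]) pA := by
  intro a b
  fin_cases a <;> fin_cases b <;> simp [pA, pB]

theorem sim2 : Sim (pB ∘ ![1, 2]) pA := by
  have h1 := s_lt
  intro a b
  fin_cases a <;> fin_cases b <;> simp [pA, pB, val, h1]

theorem no_witness (S : Set OM) (hS : S.Finite) :
    letI := oS pA
    letI := oS pB
    ∃ χ : (Fin 2 ↪[LO] OM) → Fin 2, OutDef.{u} LO OM 2 χ ∧ ¬ MonoCopyIn LO OM 2 (Fin 3) χ S := by
  classical
  letI := oS pA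
  letI := oS pB
  obtain ⟨K, hK⟩ := (hS.image OM.c).bddAbove
  have hK' : ∀ x ∈ S, x.c < K + 1 := fun x hx => Nat.lt_succ_of_le (hK ⟨x, hx, rfl⟩)
  choose e he1 he2 he3 using fun c : Fin (K + 1) => exists_val c (zero_lt_one' ℝ)
  refine ⟨fun f => if (f 0).c < (f 1).c ∧ (f 1).c < K + 1 then 0 else 1, ?_, ?_⟩
  · let φ0 : LO.Formula (Fin (K + 1) ⊕ Fin 2) :=
      Formula.iSup (fun p : {p : Fin (K + 1) × Fin (K + 1) // p.1 < p.2} =>
        Relations.formula₂ (L := LO) ORel.eqv (Term.var (Sum.inl p.1.1)) (Term.var (Sum.inr 0)) ⊓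
        Relations.formula₂ (L := LO) ORel.eqv (Term.var (Sum.inl p.1.2)) (Term.var (Sum.inr 1)))
    refine outDef_of e ?_ ![φ0, φ0.not] ?_
    · rintro i ⟨x, hx⟩
      have h2 := he2 i
      have h3 := he3 i
      rw [← hx] at h2 h3
      rcases val_gap x with ⟨h4, h5⟩ | ⟨h4, h5⟩ <;> linarith
    · intro f i
      have h0 : φ0.Realize (Sum.elim e (fun a => gap (f a))) ↔
          (f 0).c < (f 1).c ∧ (f 1).c < K + 1 := by
        simp only [φ0, Formula.realize_iSup, Formula.realize_inf, Formula.realize_rel₂]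
        constructor
        · rintro ⟨⟨⟨c, d⟩, hcd⟩, h1, h2⟩
          have h3 : (e c).c = (f 0).c := h1
          have h4 : (e d).c = (f 1).c := h2
          rw [he1] at h3 h4
          rw [← h3, ← h4]
          exact ⟨hcd, d.2⟩
        · rintro ⟨h1, h2⟩
          exact ⟨⟨(⟨(f 0).c, h1.trans h2⟩, ⟨(f 1).c, h2⟩), h1⟩, he1 _, he1 _⟩
      fin_cases i
      · simp only [Fin.zero_eta, Matrix.cons_val_zero]
        rw [h0]
        by_cases hx : (f 0).c < (f 1).c ∧ (f 1).c < K + 1 <;> simp only [hx] <;> simp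
      · simp only [Fin.mk_one, Matrix.cons_val_one, Matrix.cons_val_zero, Formula.realize_not]
        rw [h0]
        by_cases hx : (f 0).c < (f 1).c ∧ (f 1).c < K + 1 <;> simp only [hx] <;> simp
  · rintro ⟨g, hg, hmono⟩
    have h1 := hmono (g.comp (simEmb pA pA_inj pB _ sim1)) (g.comp (simEmb pA pA_inj pB _ sim2))
      (by rintro _ ⟨i, rfl⟩; exact ⟨_, rfl⟩) (by rintro _ ⟨i, rfl⟩; exact ⟨_, rfl⟩)
    have h2 : (if (g 0).c < (g 1).c ∧ (g 1).c < K + 1 then (0 : Fin 2) else 1) =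
        if (g 1).c < (g 2).c ∧ (g 2).c < K + 1 then (0 : Fin 2) else 1 := h1
    have h3 : (g 0).c = (g 2).c := (emb_sim g (subEmb pB pB_inj) 0 2).2.2 rfl
    have h4 : (g 0).c ≠ (g 1).c := fun hh =>
      absurd ((emb_sim g (subEmb pB pB_inj) 0 1).2.1 hh) (by decide)
    have h5 := hK' _ (hg ⟨0, rfl⟩)
    have h6 := hK' _ (hg ⟨1, rfl⟩)
    rw [← h3] at h2
    rcases lt_or_gt_of_ne h4 with h7 | h7
    · rw [if_pos ⟨h7, h6⟩, if_neg (fun hh => lt_asymm h7 hh.1)] at h2
      exact absurd h2 (by decide)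
    · rw [if_neg (fun hh => lt_asymm h7 hh.1), if_pos ⟨h7, h5⟩] at h2
      exact absurd h2 (by decide)

theorem main : ∃ (L : FirstOrder.Language.{0, 0}) (_ : L.IsRelational) (_ : Finite L.Symbols)
    (M : Type) (_ : L.Structure M), Countable M ∧ Infinite M ∧ L.IsUltrahomogeneous M ∧
    (∃ r : L.Relations 2, IsStrictTotalOrder M fun x y => Structure.RelMap r ![x, y]) ∧
    (∀ (n : ℕ) (_ : L.Structure (Fin n)) (B : Type) (_ : L.Structure B),
      Finite B → Nonempty (B ↪[L] M) →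
      ∀ χ : (Fin n ↪[L] M) → Fin 2, ExtDef.{u} L M n χ → MonoCopyIn L M n B χ Set.univ) ∧
    ∃ (n : ℕ) (_ : L.Structure (Fin n)) (B : Type) (_ : L.Structure B),
      Finite B ∧ Nonempty (Fin n ↪[L] M) ∧ Nonempty (B ↪[L] M) ∧
      ∀ S : Set M, S.Finite →
        ∃ χ : (Fin n ↪[L] M) → Fin 2, OutDef.{u} L M n χ ∧ ¬ MonoCopyIn L M n B χ S := by
  refine ⟨LO, loRel, lo_finite, OM, oM, om_countable, om_infinite, ultra, ⟨ORel.lt, ?_⟩, ?_,
    2, oS pA, Fin 3, oS pB, inferInstance, ⟨subEmb pA pA_inj⟩, ⟨subEmb pB pB_inj⟩, no_witness⟩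
  · show IsStrictTotalOrder OM fun x y => val x < val y
    exact { trichotomous := fun a b h1 h2 => val_inj (le_antisymm (not_lt.1 h2) (not_lt.1 h1))
            irrefl := fun a => lt_irrefl _
            trans := fun a b c => lt_trans }
  · rintro n _ B _ hB ⟨g0⟩
    exact arrow_M n B g0

end Pool.Agent.P.MP_5814e0_lc.Out
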